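import Pool.Agent.Helper40.Nm.Goals

/-!
Packet SEC: sections of the Neron model and points of the generic fibre.
-/

open CategoryTheory AlgebraicGeometry Limits TensorProduct

namespace Pool.Agent.Helper31.Nm

open Pool.Agent.Helper40.Nm

theorem specOver_hom (R : Type) [CommRing R] :
    (specOver (RingHom.id R)).hom = 𝟙 (Spec (CommRingCat.of R)) := by
  change Spec.map (CommRingCat.ofHom (RingHom.id R)) = _
  rw [CommRingCat.ofHom_id, Spec.map_id]

theorem map_t {M B : Type} [Field M] [CommRing B] [HopfAlgebra M B] (t : B →ₐ[M] M) :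
    Spec.map (CommRingCat.ofHom t.toRingHom) ≫ Spec.map (CommRingCat.ofHom (algebraMap M B)) =
      𝟙 (Spec (CommRingCat.of M)) := by
  rw [← Spec.map_comp, ← CommRingCat.ofHom_comp]
  have h : t.toRingHom.comp (algebraMap M B) = RingHom.id M := by
    ext x
    exact t.commutes x
  rw [h, CommRingCat.ofHom_id, Spec.map_id]

theorem sec : SEC := by
  intro R M B _ _ _ _ _ _ _ _ 𝒢
  constructor
  · intro t
    have hY : (specOver (RingHom.id R)).hom = 𝟙 (Spec (CommRingCat.of R)) := specOver_hom R
    have hiso : IsIso (specOver (RingHom.id R)).hom := by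
      rw [hY]
      exact IsIso.id (Spec (CommRingCat.of R))
    set g := Spec.map (CommRingCat.ofHom (algebraMap R M)) with hg
    have hfst : pullback.fst (specOver (RingHom.id R)).hom g =
        pullback.snd (specOver (RingHom.id R)).hom g ≫ g := by
      rw [← pullback.condition, hY]
      exact (Category.comp_id _).symm
    have hsm : Smooth (specOver (RingHom.id R)).hom := inferInstance
    obtain ⟨v, hv, huv⟩ := 𝒢.neron (specOver (RingHom.id R)) inferInstance
      (pullback.snd _ _ ≫ Spec.map (CommRingCat.ofHom t.toRingHom)) (by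
        rw [Category.assoc, map_t t]
        exact Category.comp_id _)
    have key : ∀ s : specOver (RingHom.id R) ⟶ 𝒢.G, Lifts 𝒢 t s ↔
        pullback.fst (specOver (RingHom.id R)).hom g ≫ s.left =
          (pullback.snd (specOver (RingHom.id R)).hom g ≫
            Spec.map (CommRingCat.ofHom t.toRingHom)) ≫ 𝒢.j := by
      intro s
      unfold Lifts
      rw [hfst, Category.assoc, Category.assoc]
      constructor
      · intro h
        rw [← h]
      · intro h
        exact (cancel_epi (pullback.snd (specOver (RingHom.id R)).hom g)).1 h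
    exact ⟨v, (key v).2 hv, fun s hs => huv s ((key s).1 hs)⟩
  · intro s
    have hY : (specOver (RingHom.id R)).hom = 𝟙 (Spec (CommRingCat.of R)) := specOver_hom R
    have hs : s.left ≫ 𝒢.G.hom = 𝟙 (Spec (CommRingCat.of R)) := by
      rw [← hY]
      exact Over.w s
    have hc : (Spec.map (CommRingCat.ofHom (algebraMap R M)) ≫ s.left) ≫ 𝒢.G.hom =
        𝟙 (Spec (CommRingCat.of M)) ≫ Spec.map (CommRingCat.ofHom (algebraMap R M)) := by
      rw [Category.assoc, hs, Category.id_comp]
      exact Category.comp_id _
    let m : Spec (CommRingCat.of M) ⟶ Spec (CommRingCat.of B) := 𝒢.isPullback.lift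
      (Spec.map (CommRingCat.ofHom (algebraMap R M)) ≫ s.left) (𝟙 _) hc
    have hm1 : m ≫ 𝒢.j = Spec.map (CommRingCat.ofHom (algebraMap R M)) ≫ s.left :=
      𝒢.isPullback.lift_fst _ _ hc
    have hm2 : m ≫ Spec.map (CommRingCat.ofHom (algebraMap M B)) = 𝟙 _ :=
      𝒢.isPullback.lift_snd _ _ hc
    obtain ⟨φ, hφ⟩ := Spec.map_surjective m
    have hcomp : CommRingCat.ofHom (algebraMap M B) ≫ φ = 𝟙 (CommRingCat.of M) := by
      apply Spec.map_injective
      rw [Spec.map_comp, hφ, hm2, Spec.map_id]
    let t : B →ₐ[M] M :=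
      { φ.hom with
        commutes' := fun x => by
          have := congrArg (fun f => f.hom x) hcomp
          exact this }
    have ht : Spec.map (CommRingCat.ofHom t.toRingHom) = m := by
      rw [← hφ]
      rfl
    refine ⟨t, ?_, ?_⟩
    · change _ = Spec.map (CommRingCat.ofHom t.toRingHom) ≫ 𝒢.j
      rw [ht, hm1]
    · intro t' ht'
      have h1 : Spec.map (CommRingCat.ofHom t'.toRingHom) = m := by
        apply 𝒢.isPullback.hom_ext
        · rw [hm1]
          exact ht'.symm
        · rw [hm2, map_t t']
      have h2 : CommRingCat.ofHom t'.toRingHom = CommRingCat.ofHom t.toRingHom := by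
        apply Spec.map_injective
        rw [h1, ht]
      have h3 : t'.toRingHom = t.toRingHom := congrArg CommRingCat.Hom.hom h2
      exact AlgHom.ext fun x => congrArg (fun f : B →+* M => f x) h3

end Pool.Agent.Helper31.Nm
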